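import Pool.Agent.K1H14.SD.Stm

set_option autoImplicit false

namespace Pool.Agent.K1H58.SD

open scoped symmDiff

/-- all sets of the same size -/
theorem level {d : ℕ} {P : Finset (Fin d) → Prop}
    (h2 : ∀ K : Finset (Fin d), K.card = 2 → P K)
    (hx : ∀ K L : Finset (Fin d), P K → P L → Odd (K ∩ L).card → P (K ∆ L)) :
    ∀ (n : ℕ) (K L : Finset (Fin d)), (K \ L).card = n → P K → L.card = K.card → P L := by
  intro n
  induction n with
  | zero =>
    intro K L h0 hK hc
    have h1 : K ⊆ L := by
      rw [Finset.card_eq_zero, Finset.sdiff_eq_empty_iff_subset] at h0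
      exact h0
    have h3 : K = L := Finset.eq_of_subset_of_card_le h1 (by omega)
    rwa [← h3]
  | succ n ih =>
    intro K L h0 hK hc
    have h1 : (K \ L).Nonempty := by
      rw [← Finset.card_pos]
      omega
    obtain ⟨i, hi⟩ := h1
    have h3 : (L \ K).card = (K \ L).card := Finset.card_sdiff_comm hc
    have h4 : (L \ K).Nonempty := by
      rw [← Finset.card_pos]
      omega
    obtain ⟨j, hj⟩ := h4
    rw [Finset.mem_sdiff] at hi hj
    have hij : i ≠ j := by
      intro h
      exact hj.2 (h ▸ hi.1)
    have h5 : K ∩ {i, j} = {i} := by
      ext x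
      simp only [Finset.mem_inter, Finset.mem_insert, Finset.mem_singleton]
      constructor
      · rintro ⟨h6, h7 | h7⟩
        · exact h7
        · exact absurd (h7 ▸ h6) hj.2
      · intro h6
        exact ⟨h6 ▸ hi.1, Or.inl h6⟩
    have h6 : P (K ∆ {i, j}) := by
      refine hx K {i, j} hK (h2 _ (Finset.card_pair hij)) ?_
      rw [h5, Finset.card_singleton]
      exact odd_one
    have h7 : K ∆ {i, j} = insert j (K.erase i) := by
      ext x
      simp only [Finset.mem_symmDiff, Finset.mem_insert, Finset.mem_singleton, Finset.mem_erase]
      by_cases hxi : x = i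
      · subst hxi
        simp [hi.1, hij]
      · by_cases hxj : x = j
        · subst hxj
          simp [hj.2]
        · simp [hxi, hxj]
    rw [h7] at h6
    refine ih _ L ?_ h6 ?_
    · have h8 : insert j (K.erase i) \ L = (K \ L).erase i := by
        ext x
        simp only [Finset.mem_sdiff, Finset.mem_insert, Finset.mem_erase]
        constructor
        · rintro ⟨h9 | ⟨h9, h10⟩, h11⟩
          · exact absurd (h9 ▸ hj.1) h11
          · exact ⟨h9, h10, h11⟩
        · rintro ⟨h9, h10, h11⟩
          exact ⟨Or.inr ⟨h9, h10⟩, h11⟩
      rw [h8, Finset.card_erase_of_mem (Finset.mem_sdiff.2 hi), h0]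
      omega
    · have h8 : j ∉ K.erase i := fun h => hj.2 (Finset.mem_of_mem_erase h)
      rw [Finset.card_insert_of_notMem h8, Finset.card_erase_of_mem hi.1, hc]
      have : 0 < K.card := Finset.card_pos.2 ⟨i, hi.1⟩
      omega

theorem t_COMB : Pool.Agent.K1H14.SD.S_COMB := by
  intro d P hd h2 hx hm hex L hL hdL
  obtain ⟨K, hK, hne⟩ := hex
  have hcd : ∀ T : Finset (Fin d), T.card ≤ d := fun T => by
    simpa using Finset.card_le_univ T
  have hk := hm K hK
  have hkd := hcd K
  obtain ⟨e, he⟩ := hd
  by_cases h3 : K.card + 3 ≤ d
  · -- all sets with six elements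
    have h6 : ∀ T : Finset (Fin d), T.card = 6 → P T := by
      obtain ⟨A, hA, hAc⟩ := Finset.exists_subset_card_eq (s := K) (n := 3) (by omega)
      have hKc : Kᶜ.card = d - K.card := by
        rw [Finset.card_compl, Fintype.card_fin]
      obtain ⟨B, hB, hBc⟩ := Finset.exists_subset_card_eq (s := Kᶜ) (n := 3) (by omega)
      have hBK : ∀ x ∈ B, x ∉ K := fun x hx => Finset.mem_compl.1 (hB hx)
      have hdis : Disjoint (K \ A) B := by
        rw [Finset.disjoint_left]
        intro x h4 h5
        exact hBK x h5 (Finset.mem_sdiff.1 h4).1
      have hKA : (K \ A).card = K.card - 3 := by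
        rw [Finset.card_sdiff_of_subset hA, hAc]
      have hLc : ((K \ A) ∪ B).card = K.card := by
        rw [Finset.card_union_of_disjoint hdis, hKA, hBc]
        omega
      have hPL : P ((K \ A) ∪ B) := level h2 hx _ K _ rfl hK hLc
      have hint : K ∩ ((K \ A) ∪ B) = K \ A := by
        ext x
        simp only [Finset.mem_inter, Finset.mem_union, Finset.mem_sdiff]
        constructor
        · rintro ⟨h4, h5 | h5⟩
          · exact h5
          · exact absurd h4 (hBK x h5)
        · rintro ⟨h4, h5⟩
          exact ⟨h4, Or.inl ⟨h4, h5⟩⟩
      have hsym : K ∆ ((K \ A) ∪ B) = A ∪ B := by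
        ext x
        simp only [Finset.mem_symmDiff, Finset.mem_union, Finset.mem_sdiff]
        constructor
        · rintro (⟨h4, h5⟩ | ⟨h4, h5⟩)
          · left
            by_contra h6
            exact h5 (Or.inl ⟨h4, h6⟩)
          · rcases h4 with h4 | h4
            · exact absurd h4.1 h5
            · exact Or.inr h4
        · rintro (h4 | h4)
          · refine Or.inl ⟨hA h4, ?_⟩
            rintro (h5 | h5)
            · exact h5.2 h4
            · exact hBK x h5 (hA h4)
          · exact Or.inr ⟨Or.inr h4, hBK x h4⟩
      have hP : P (A ∪ B) := by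
        rw [← hsym]
        refine hx _ _ hK hPL ?_
        rw [hint, hKA, Nat.odd_iff]
        omega
      have hdAB : Disjoint A B := by
        rw [Finset.disjoint_left]
        intro x h4 h5
        exact hBK x h5 (hA h4)
      have hABc : (A ∪ B).card = 6 := by
        rw [Finset.card_union_of_disjoint hdAB, hAc, hBc]
      intro T hT
      exact level h2 hx _ (A ∪ B) T rfl hP (by omega)
    -- all levels
    have hall : ∀ (m : ℕ) (T : Finset (Fin d)), T.card = 4 * m + 2 → P T := by
      intro m
      induction m with
      | zero => exact fun T hT => h2 T (by omega)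
      | succ m ih =>
        intro T hT
        have hTd := hcd T
        have hTn : (Tᶜ).Nonempty := by
          rw [← Finset.card_pos, Finset.card_compl, Fintype.card_fin]
          omega
        obtain ⟨x, hx0⟩ := hTn
        have hxT : x ∉ T := Finset.mem_compl.1 hx0
        obtain ⟨A, hA, hAc⟩ := Finset.exists_subset_card_eq (s := T) (n := 5) (by omega)
        have hxA : x ∉ A := fun h => hxT (hA h)
        have h7 : P (insert x A) := h6 _ (by rw [Finset.card_insert_of_notMem hxA, hAc])
        have hxTA : x ∉ T \ A := fun h => hxT (Finset.mem_sdiff.1 h).1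
        have h8 : P (insert x (T \ A)) := by
          refine ih _ ?_
          rw [Finset.card_insert_of_notMem hxTA, Finset.card_sdiff_of_subset hA, hAc, hT]
          omega
        have h9 : insert x A ∩ insert x (T \ A) = {x} := by
          ext y
          simp only [Finset.mem_inter, Finset.mem_insert, Finset.mem_sdiff, Finset.mem_singleton]
          constructor
          · rintro ⟨h10 | h10, h11 | h11⟩
            · exact h10
            · exact h10
            · exact h11
            · exact absurd h10 h11.2
          · intro h10
            exact ⟨Or.inl h10, Or.inl h10⟩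
        have h10 : insert x A ∆ insert x (T \ A) = T := by
          ext y
          simp only [Finset.mem_symmDiff, Finset.mem_insert, Finset.mem_sdiff]
          by_cases hyx : y = x
          · subst hyx
            simp [hxT]
          · by_cases hyA : y ∈ A
            · have := hA hyA
              simp [hyx, hyA, this]
            · simp [hyx, hyA]
        rw [← h10]
        refine hx _ _ h7 h8 ?_
        rw [h9, Finset.card_singleton]
        exact odd_one
    exact hall (L.card / 4) L (by omega)
  · -- the set `K` has `d - 1` elements
    have h4 : d % 4 = 3 := by omega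
    have h5 := hdL h4
    exact level h2 hx _ K L rfl hK (by omega)

end Pool.Agent.K1H58.SD
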